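import Mathlib
import Pool.Agent.H552R3.PC.Quant3
import Pool.Agent.TH82.NC.Alt

/-! `n`-central polynomials (`n` an odd prime, `K` any infinite field) are constant on the block
triangular matrices of each type, upper or lower.  Every word that can be cut into powers of single
letters by deleting fewer than `n` letters has coefficient zero.  Hence every nonconstant monomial
has length at least `2 n` and contains, for every variable `x`, at least `n` letters different
from `x`. -/

set_option autoImplicit false

namespace Pool.Agent.Results.MP_5d2531_al.BlockTriangular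

open Pool.Agent.H552R3.PC Pool.Agent.TH82.NC

/-- Every value of `f` on `n × n` matrices over `K` is a scalar matrix. -/
def ScalarValued {K : Type*} [Field K] {σ : Type*} (n : ℕ) (f : FreeAlgebra K σ) : Prop :=
  ∀ X : σ → Matrix (Fin n) (Fin n) K, ∃ c : K, FreeAlgebra.lift K X f = Matrix.scalar (Fin n) c

/-- `f` is central for `M_n(K)`: all values are scalar and `f` is not identically zero. -/
def IsCentral {K : Type*} [Field K] {σ : Type*} (n : ℕ) (f : FreeAlgebra K σ) : Prop :=
  ScalarValued n f ∧ ∃ X : σ → Matrix (Fin n) (Fin n) K, FreeAlgebra.lift K X f ≠ 0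

/-- `f` is `ν`-central for `M_n(K)`: `ν` is the least positive integer with `f ^ ν` central. -/
def IsNuCentral {K : Type*} [Field K] {σ : Type*} (n ν : ℕ) (f : FreeAlgebra K σ) : Prop :=
  0 < ν ∧ IsCentral n (f ^ ν) ∧ ∀ μ : ℕ, 0 < μ → IsCentral n (f ^ μ) → ν ≤ μ

/-- The coefficient of the word `l` in `f`. -/
noncomputable def coef {K : Type*} [Field K] {σ : Type*} (f : FreeAlgebra K σ) (l : List σ) : K :=
  (FreeAlgebra.equivMonoidAlgebraFreeMonoid f).coeff (FreeMonoid.ofList l)

/-- `Stair k l`: the word `l` has the form `x₀ ^ e₀ y₁ x₁ ^ e₁ y₂ x₂ ^ e₂ ⋯ y_k x_k ^ e_k` with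
letters `x_i`, `y_i` and exponents `e_i ≥ 0`. -/
inductive Stair {σ : Type*} : ℕ → List σ → Prop
  | zero (e : ℕ) (x : σ) : Stair 0 (List.replicate e x)
  | succ (k e : ℕ) (x y : σ) (l : List σ) (h : Stair k l) :
      Stair (k + 1) (List.replicate e x ++ y :: l)

theorem Stair.toNC {σ : Type*} {k : ℕ} {l : List σ} (h : Stair k l) :
    Pool.Agent.TH82.NC.Stair k l := by
  induction h with
  | zero e x => exact .zero e x
  | succ k e x y l h ih => exact .succ k e x y l ih

/-- The value at zero is the coefficient of the empty word. -/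
theorem lift_zero_coef {K : Type*} [Field K] {σ : Type*} (f : FreeAlgebra K σ) :
    FreeAlgebra.lift K (fun _ : σ => (0 : K)) f = coef f [] := by
  classical
  obtain ⟨g, rfl⟩ := (FreeAlgebra.equivMonoidAlgebraFreeMonoid (R := K) (X := σ)).symm.surjective f
  unfold coef
  rw [AlgEquiv.apply_symm_apply]
  induction g using MonoidAlgebra.induction_linear with
  | zero => simp
  | add g h hg hh =>
    rw [map_add, map_add, hg, hh, MonoidAlgebra.coeff_add, Finsupp.add_apply]
  | single w c =>
    rw [lift_symm_single, MonoidAlgebra.coeff_single, Finsupp.single_apply]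
    by_cases h : w = FreeMonoid.ofList []
    · subst h
      rw [if_pos rfl]
      simp
    · rw [if_neg h]
      have h1 : FreeMonoid.toList w ≠ [] := fun e => h (by rw [← e]; rfl)
      obtain ⟨a, l, hl⟩ := List.exists_cons_of_ne_nil h1
      rw [hl, List.map_cons, List.prod_cons, zero_mul, smul_zero]

theorem cf_sub {K : Type*} [Field K] {σ : Type*} (f : FreeAlgebra K σ) (c : K) (l : List σ)
    (hl : l ≠ []) : cf (f - algebraMap K (FreeAlgebra K σ) c) l = coef f l := by
  classical
  have h1 : (FreeAlgebra.equivMonoidAlgebraFreeMonoid (algebraMap K (FreeAlgebra K σ) c)).coeff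
      (FreeMonoid.ofList l) = 0 := by
    rw [AlgEquiv.commutes, MonoidAlgebra.coe_algebraMap]
    simp only [Function.comp_apply, MonoidAlgebra.coeff_single]
    rw [Finsupp.single_apply, if_neg]
    intro e
    exact hl (congrArg FreeMonoid.toList e).symm
  unfold cf coef
  rw [map_sub, MonoidAlgebra.coeff_sub, Finsupp.sub_apply, h1, sub_zero]

/-- Let `n` be an odd prime, `K` an infinite field (of any characteristic), `f` an `n`-central
polynomial for `M_n(K)` and `c` its constant term.
* For all `d, e > 0` with `d + e = n`, `f` is equal to `c` on all block upper triangular matrices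
  with diagonal blocks of sizes `d`, `e`, or `f` is equal to `c` on all block lower triangular
  matrices with diagonal blocks of sizes `d`, `e`.
* No nonempty word `x₀ ^ e₀ y₁ x₁ ^ e₁ ⋯ y_k x_k ^ e_k` with `k < n` occurs in `f`.  In particular
  every nonempty word occurring in `f` has length at least `2 n` and contains, for every
  variable `x`, at least `n` letters different from `x`. -/
theorem result {K : Type*} [Field K] [Infinite K] {σ : Type*} [DecidableEq σ] (n : ℕ)
    (hn : n.Prime) (hn2 : n ≠ 2) (f : FreeAlgebra K σ) (hcen : IsNuCentral n n f) :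
    (∀ d e : ℕ, 0 < d → 0 < e → d + e = n →
      (∀ (A : σ → Matrix (Fin d) (Fin d) K) (A' : σ → Matrix (Fin e) (Fin e) K)
        (B : σ → Matrix (Fin d) (Fin e) K),
        FreeAlgebra.lift K (fun i => Matrix.fromBlocks (A i) (B i) 0 (A' i)) f =
          Matrix.scalar (Fin d ⊕ Fin e) (coef f [])) ∨
      (∀ (A : σ → Matrix (Fin d) (Fin d) K) (A' : σ → Matrix (Fin e) (Fin e) K)
        (C : σ → Matrix (Fin e) (Fin d) K),
        FreeAlgebra.lift K (fun i => Matrix.fromBlocks (A i) 0 (C i) (A' i)) f =
          Matrix.scalar (Fin d ⊕ Fin e) (coef f []))) ∧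
    (∀ l : List σ, l ≠ [] → coef f l ≠ 0 →
      (∀ k < n, ¬ Stair k l) ∧ 2 * n ≤ l.length ∧ ∀ x : σ, n ≤ l.countP (fun a => a ≠ x)) := by
  have : NeZero n := ⟨hn.ne_zero⟩
  have hn3 : 3 ≤ n := by have := hn.two_le; omega
  obtain ⟨h1, ⟨h2, X0, hX0⟩, h3⟩ := hcen
  have hfX0 : FreeAlgebra.lift K X0 f ≠ 0 := by
    intro hz
    apply hX0
    rw [map_pow, hz, zero_pow hn.ne_zero]
  have hpow : ∀ X : σ → Matrix (Fin n) (Fin n) K, ∀ Z : Matrix (Fin n) (Fin n) K,
      FreeAlgebra.lift K X (f ^ n) * Z = Z * FreeAlgebra.lift K X (f ^ n) := by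
    intro X Z
    obtain ⟨c, hc⟩ := h2 X
    rw [hc]
    exact (Matrix.scalar_commute c (fun _ => Commute.all _ _) Z).eq
  -- `f` is not scalar valued
  have hns : ∃ X : σ → Matrix (Fin n) (Fin n) K, ∃ Z : Matrix (Fin n) (Fin n) K,
      FreeAlgebra.lift K X f * Z ≠ Z * FreeAlgebra.lift K X f := by
    by_contra hcon
    push Not at hcon
    have h4 : IsCentral n (f ^ 1) := by
      rw [pow_one]
      exact ⟨fun X => scalar_of_comm _ (fun Y => hcon X Y), X0, hfX0⟩
    have h5 := h3 1 one_pos h4
    omega
  -- the constant term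
  have hc0 : (n : K) ≠ 0 → coef f [] = 0 := by
    intro hnK
    obtain ⟨c, hc⟩ := charpoly_of_ncentral hn hnK f hpow hns (fun _ => 0)
    have h4 : (FreeAlgebra.lift K (fun _ : σ => (0 : Matrix (Fin n) (Fin n) K)) f).trace = 0 := by
      rw [Matrix.trace_eq_neg_charpoly_coeff, hc, Fintype.card_fin, Polynomial.coeff_sub,
        Polynomial.coeff_X_pow, if_neg (by omega), Polynomial.coeff_C, if_neg (by omega), sub_zero,
        neg_zero]
    rw [lift_zero, lift_zero_coef, Matrix.trace] at h4
    simp only [Matrix.diag_apply, Matrix.algebraMap_matrix_apply, if_true, Algebra.algebraMap_self,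
      RingHom.id_apply, Finset.sum_const, Finset.card_univ, Fintype.card_fin, nsmul_eq_mul] at h4
    exact (mul_eq_zero.mp h4).resolve_left hnK
  set c := coef f [] with hc
  set g := f - algebraMap K (FreeAlgebra K σ) c with hg
  have hg0 : FreeAlgebra.lift K (fun _ : σ => (0 : K)) g = 0 := by
    rw [hg, map_sub, AlgHom.commutes, lift_zero_coef, ← hc]
    simp
  have hgn : ∀ X : σ → Matrix (Fin n) (Fin n) K, ∃ c : K,
      FreeAlgebra.lift K X (g ^ n) = Matrix.scalar (Fin n) c := by
    intro X
    by_cases hnK : (n : K) = 0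
    · have : Fact n.Prime := ⟨hn⟩
      have : CharP K n := by
        obtain ⟨q, hq⟩ := CharP.exists K
        have h4 : q ∣ n := (CharP.cast_eq_zero_iff K q n).mp hnK
        rcases (Nat.dvd_prime hn).mp h4 with h5 | h5
        · exfalso
          have := CharP.cast_eq_zero K q
          rw [h5] at this
          simp at this
        · rw [← h5]; exact hq
      have : CharP (FreeAlgebra K σ) n :=
        charP_of_injective_algebraMap (algebraMap K (FreeAlgebra K σ)).injective n
      have h4 : g ^ n = f ^ n - algebraMap K (FreeAlgebra K σ) (c ^ n) := by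
        rw [hg, sub_pow_char_of_commute n (Algebra.commutes c f).symm, map_pow]
      obtain ⟨d, hd⟩ := h2 X
      refine ⟨d - c ^ n, ?_⟩
      rw [h4, map_sub, hd, AlgHom.commutes, map_sub]
      rfl
    · have h4 : g = f := by rw [hg, hc0 hnK, map_zero, sub_zero]
      rw [h4]; exact h2 X
  have hvan := vanish_lower g n hn.pos hg0 hgn
  have hgcomm : ∀ X : σ → Matrix (Fin n) (Fin n) K, ∀ Z : Matrix (Fin n) (Fin n) K,
      FreeAlgebra.lift K X (g ^ n) * Z = Z * FreeAlgebra.lift K X (g ^ n) := by
    intro X Z
    obtain ⟨c, hc⟩ := hgn X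
    rw [hc]
    exact (Matrix.scalar_commute c (fun _ => Commute.all _ _) Z).eq
  have hst : ∀ k < n, ∀ l : List σ, Pool.Agent.TH82.NC.Stair k l → l ≠ [] → coef f l = 0 := by
    intro k hk l hl hne
    rw [← cf_sub f c l hne, ← hg]
    exact no_stair hn3 g hvan n hn.pos hgcomm k hk l hl
  have hzero : ∀ {ι κ : Type} [Fintype ι] [Fintype κ] [DecidableEq ι] [DecidableEq κ]
      (Y : σ → Matrix (ι ⊕ κ) (ι ⊕ κ) K), FreeAlgebra.lift K Y g = 0 →
      FreeAlgebra.lift K Y f = Matrix.scalar (ι ⊕ κ) c := by
    intro ι κ _ _ _ _ Y hY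
    rw [hg, map_sub, AlgHom.commutes] at hY
    exact sub_eq_zero.mp hY
  refine ⟨fun d e hd he hde => ?_, fun l hne hl => ⟨?_, ?_, fun x => ?_⟩⟩
  · have : NeZero d := ⟨hd.ne'⟩
    have : NeZero e := ⟨he.ne'⟩
    subst hde
    have hco : Nat.Coprime d e := by
      have h4 : Nat.gcd d e ∣ d + e := Nat.dvd_add (Nat.gcd_dvd_left d e) (Nat.gcd_dvd_right d e)
      rcases (Nat.dvd_prime hn).mp h4 with h5 | h5
      · exact h5
      · have h6 := Nat.gcd_le_left e hd
        omega
    have h4 := alternative hco g (fun Y => hvan d (by omega) Y) (fun Y => hvan e (by omega) Y)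
      (d + e) (hn.odd_of_ne_two hn2) hgcomm
    rcases h4 with h4 | h4
    · left
      intro A A' B
      apply hzero
      rw [lift_up, h4, hvan d (by omega), hvan e (by omega), Matrix.fromBlocks_zero]
    · right
      intro A A' C
      apply hzero
      rw [lift_lo, h4, hvan d (by omega), hvan e (by omega), Matrix.fromBlocks_zero]
  · intro k hk hkl
    exact hl (hst k hk l hkl.toNC hne)
  · by_contra hcon
    exact hl (hst (l.length / 2) (by omega) l (stair_half _ l rfl hne) hne)
  · by_contra hcon
    have h4 := stair_count x l 0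
    rw [List.replicate_zero, List.nil_append] at h4
    exact hl (hst _ (by omega) l h4 hne)

end Pool.Agent.Results.MP_5d2531_al.BlockTriangular
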