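import Mathlib
import Pool.Agent.TH46.NC.Q7

/-! For a prime `n ≥ 5` and an infinite field `K` of characteristic not `2` and not `n`, every
`n`-central polynomial for `M_n(K)` has a monomial whose length exceeds the number of its distinct
letters by at least three. -/

set_option autoImplicit false
set_option linter.all false

namespace Pool.Agent.Results.MP_5d2531_al.NearlyMultilinear

open Pool.Agent.H552R3.PC Pool.Agent.TH46.NC

variable {K : Type*} [Field K] {σ : Type*}

/-- Every value of `f` on `n × n` matrices over `K` is a scalar matrix. -/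
def ScalarValued (n : ℕ) (f : FreeAlgebra K σ) : Prop :=
  ∀ X : σ → Matrix (Fin n) (Fin n) K, ∃ c : K, FreeAlgebra.lift K X f = Matrix.scalar (Fin n) c

/-- `f` is central for `M_n(K)`: all values are scalar and `f` is not identically zero. -/
def IsCentral (n : ℕ) (f : FreeAlgebra K σ) : Prop :=
  ScalarValued n f ∧ ∃ X : σ → Matrix (Fin n) (Fin n) K, FreeAlgebra.lift K X f ≠ 0

/-- `f` is `ν`-central for `M_n(K)`: `ν` is the least positive integer with `f ^ ν` central. -/
def IsNuCentral (n ν : ℕ) (f : FreeAlgebra K σ) : Prop :=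
  0 < ν ∧ IsCentral n (f ^ ν) ∧ ∀ μ : ℕ, 0 < μ → IsCentral n (f ^ μ) → ν ≤ μ

/-- `f` is nearly multilinear: it is a linear combination of monomials whose length is at most the
number of distinct letters occurring in them plus two. -/
def IsNearlyMultilinear [DecidableEq σ] (f : FreeAlgebra K σ) : Prop :=
  f ∈ Submodule.span K {w : FreeAlgebra K σ | ∃ l : List σ,
    l.length ≤ l.toFinset.card + 2 ∧ w = (l.map (FreeAlgebra.ι K)).prod}

/-- Let `n ≥ 5` be prime and `K` an infinite field of characteristic not `2` and not `n`.  An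
`n`-central polynomial `f` for `M_n(K)` is not a linear combination of monomials whose length is at
most the number of distinct letters occurring in them plus two. -/
theorem result {K : Type*} [Field K] [Infinite K] {σ : Type*} [DecidableEq σ] (n : ℕ)
    (hn : n.Prime) (hn5 : 5 ≤ n) (hnK : (n : K) ≠ 0) (h2K : (2 : K) ≠ 0) (f : FreeAlgebra K σ)
    (hcen : IsNuCentral n n f) : ¬ IsNearlyMultilinear f := by
  intro hf
  have hodd : Odd n := hn.odd_of_ne_two (by omega)
  obtain ⟨h1, ⟨h2, X0, hX0⟩, h3⟩ := hcen
  have hfX0 : FreeAlgebra.lift K X0 f ≠ 0 := by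
    intro hz
    apply hX0
    rw [map_pow, hz, zero_pow hn.ne_zero]
  have hpow : ∀ X : σ → Matrix (Fin n) (Fin n) K, ∀ Z : Matrix (Fin n) (Fin n) K,
      FreeAlgebra.lift K X (f ^ n) * Z = Z * FreeAlgebra.lift K X (f ^ n) := by
    intro X Z
    obtain ⟨c, hc⟩ := h2 X
    rw [hc]
    exact (Matrix.scalar_commute c (fun _ => Commute.all _ _) Z).eq
  have hne : ∃ X : σ → Matrix (Fin n) (Fin n) K, ∃ Z : Matrix (Fin n) (Fin n) K,
      FreeAlgebra.lift K X f * Z ≠ Z * FreeAlgebra.lift K X f := by
    by_contra hcon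
    push Not at hcon
    have h4 : IsCentral n (f ^ 1) := by
      rw [pow_one]
      exact ⟨fun X => scalar_of_comm _ (fun Y => hcon X Y), X0, hfX0⟩
    have h5 := h3 1 one_pos h4
    omega
  have hchar := charpoly_of_ncentral hn hnK f hpow hne
  have hchp : ∀ X : σ → Matrix (Fin n) (Fin n) K, ∀ i, 0 < i → i < n →
      (FreeAlgebra.lift K X f).charpoly.coeff i = 0 := by
    intro X i hi hin
    obtain ⟨c, hc⟩ := hchar X
    rw [hc, Polynomial.coeff_sub, Polynomial.coeff_X_pow, Polynomial.coeff_C, if_neg hin.ne,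
      if_neg hi.ne', sub_zero]
  exact hfX0 (near_zero hn5 hodd hnK h2K f hf ⟨hpow, hchp⟩ X0)

end Pool.Agent.Results.MP_5d2531_al.NearlyMultilinear
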