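import Mathlib
import Pool.Agent.TH901.NC.Zero

/-! Power-central polynomials for `n × n` matrices, `n ≥ 5` prime to `6` (in particular `n ≥ 5`
prime), over any infinite field: the part of degree at most `n` in the variables other than one. -/

set_option autoImplicit false
set_option linter.all false

universe u

namespace Pool.Agent.Results.MP_5d2531_al.OtherVariablesDegree

open Pool.Agent.H552R3.PC Pool.Agent.TH901.NC

/-- Every value of `f` on `n × n` matrices over `K` is a scalar matrix. -/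
def ScalarValued {K : Type u} [Field K] {σ : Type*} (n : ℕ) (f : FreeAlgebra K σ) : Prop :=
  ∀ X : σ → Matrix (Fin n) (Fin n) K, ∃ c : K, FreeAlgebra.lift K X f = Matrix.scalar (Fin n) c

/-- `f` is central for `M_n(K)`: all values are scalar and `f` is not identically zero. -/
def IsCentral {K : Type u} [Field K] {σ : Type*} (n : ℕ) (f : FreeAlgebra K σ) : Prop :=
  ScalarValued n f ∧ ∃ X : σ → Matrix (Fin n) (Fin n) K, FreeAlgebra.lift K X f ≠ 0

/-- `f` is `ν`-central for `M_n(K)`: `ν` is the least positive integer with `f ^ ν` central. -/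
def IsNuCentral {K : Type u} [Field K] {σ : Type*} (n ν : ℕ) (f : FreeAlgebra K σ) : Prop :=
  0 < ν ∧ IsCentral n (f ^ ν) ∧ ∀ μ : ℕ, 0 < μ → IsCentral n (f ^ μ) → ν ≤ μ

open Classical in
/-- The number of letters of the word `l` outside `J`. -/
noncomputable def lettersOutside {σ : Type*} (J : Set σ) (l : List σ) : ℕ :=
  l.countP (fun s => s ∉ J)

/-- `g` is a linear combination of words with at most `d` letters outside `J`. -/
def AtMostOutside {K : Type u} [Field K] {σ : Type*} (J : Set σ) (d : ℕ)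
    (g : FreeAlgebra K σ) : Prop :=
  g ∈ Submodule.span K {w : FreeAlgebra K σ | ∃ l : List σ,
    lettersOutside J l ≤ d ∧ w = (l.map (FreeAlgebra.ι K)).prod}

/-- `h` is a linear combination of words with more than `d` letters outside `J`. -/
def MoreThanOutside {K : Type u} [Field K] {σ : Type*} (J : Set σ) (d : ℕ)
    (h : FreeAlgebra K σ) : Prop :=
  h ∈ Submodule.span K {w : FreeAlgebra K σ | ∃ l : List σ,
    d < lettersOutside J l ∧ w = (l.map (FreeAlgebra.ι K)).prod}

theorem yd_eq {σ : Type*} (J : Set σ) (J' : σ → Prop) [DecidablePred J']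
    (hJ : ∀ s, J' s ↔ s ∈ J) (l : List σ) : yd J' l = lettersOutside J l := by
  classical
  rw [yd, ← List.countP_eq_length_filter, lettersOutside]
  refine List.countP_congr fun s _ => ?_
  rw [decide_eq_true_iff, decide_eq_true_iff, hJ]

/-- Let `n ≥ 5` be prime to `6` (for instance a prime), `K` any infinite field, `J` a set of
variables and `f = g + h`, where all words of `g` have at most `n` letters outside `J` and all words
of `h` have more than `n` letters outside `J`.  Suppose that `f ^ ν`, `ν ≥ 1`, takes only scalar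
values on `M_n(K)`.
* If the matrices `X_i`, `i ∈ J`, are diagonal, or if `J` consists of one variable (or none) and `X`
  is arbitrary, then `g(X)` is a scalar matrix.
* In these cases `g(X) = 0` if `ν` is not zero in `K` and `f` has a value which is not scalar.
* If `J` consists of one variable and `f` is `ν`-central for `M_n(K)`, `ν > 1`, then `f` has words
  with more than `n` letters outside `J`. -/
theorem result {K : Type u} [Field K] [Infinite K] {σ : Type*} (n : ℕ)
    (hn : 5 ≤ n) (hn6 : n.Coprime 6) (ν : ℕ) (hν : 0 < ν) (J : Set σ) (g h : FreeAlgebra K σ)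
    (hg : AtMostOutside J n g) (hh : MoreThanOutside J n h)
    (hf : ScalarValued n ((g + h) ^ ν)) :
    (∀ X : σ → Matrix (Fin n) (Fin n) K, (J.Subsingleton ∨ ∀ i ∈ J, (X i).IsDiag) →
      ∃ c : K, FreeAlgebra.lift K X g = Matrix.scalar (Fin n) c) ∧
    ((ν : K) ≠ 0 → ¬ ScalarValued n (g + h) →
      ∀ X : σ → Matrix (Fin n) (Fin n) K, (J.Subsingleton ∨ ∀ i ∈ J, (X i).IsDiag) →
        FreeAlgebra.lift K X g = 0) ∧
    (J.Subsingleton → 1 < ν → IsNuCentral n ν (g + h) → h ≠ 0) := by
  classical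
  have h2 : ¬ 2 ∣ n := by
    intro h
    have h1 := Nat.dvd_gcd h (show 2 ∣ 6 by norm_num)
    rw [hn6] at h1
    omega
  have h3 : ¬ 3 ∣ n := by
    intro h
    have h1 := Nat.dvd_gcd h (show 3 ∣ 6 by norm_num)
    rw [hn6] at h1
    omega
  obtain ⟨N, rfl⟩ : ∃ N, n = N + 1 := ⟨n - 1, by omega⟩
  have hN : 4 ≤ N := by omega
  have hsc : ∀ (X : σ → Matrix (Fin (N + 1)) (Fin (N + 1)) K)
      (Z : Matrix (Fin (N + 1)) (Fin (N + 1)) K),
      FreeAlgebra.lift K X ((g + h) ^ ν) * Z = Z * FreeAlgebra.lift K X ((g + h) ^ ν) := by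
    intro X Z
    obtain ⟨c, hc⟩ := hf X
    rw [hc]
    exact (Matrix.scalar_commute c (fun _ => Commute.all _ _) Z).eq
  have hgJ : ∀ (J' : σ → Prop) [DecidablePred J'], (∀ s, J' s ↔ s ∈ J) →
      g ∈ WDle K J' (N + 1) := by
    intro J' _ hJ
    refine Submodule.span_mono ?_ hg
    rintro _ ⟨l, hl, rfl⟩
    exact ⟨l, by rw [yd_eq J J' hJ]; exact hl, rfl⟩
  have hhJ : ∀ (J' : σ → Prop) [DecidablePred J'], (∀ s, J' s ↔ s ∈ J) →
      h ∈ WDgt K J' (N + 1) := by
    intro J' _ hJ
    refine Submodule.span_mono ?_ hh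
    rintro _ ⟨l, hl, rfl⟩
    exact ⟨l, by rw [yd_eq J J' hJ]; exact hl, rfl⟩
  have hdiag : ∀ X : σ → Matrix (Fin (N + 1)) (Fin (N + 1)) K, (∀ i ∈ J, (X i).IsDiag) →
      ∀ s, s ∈ J → X s = Matrix.diagonal (fun i => X s i i) := by
    intro X hX s hs
    ext1 i j
    by_cases hij : i = j
    · subst hij
      rw [Matrix.diagonal_apply_eq]
    · rw [Matrix.diagonal_apply_ne _ hij]
      exact hX s hs hij
  have hsub : J.Subsingleton → ∀ X : σ → Matrix (Fin (N + 1)) (Fin (N + 1)) K,
      (∀ i ∈ J, (X i).IsDiag) ∨ ∃ x, J = {x} := by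
    intro hJ X
    rcases hJ.eq_empty_or_singleton with hJ | ⟨x, hJ⟩
    · left
      rw [hJ]
      exact fun i hi => absurd hi (Set.notMem_empty i)
    · exact Or.inr ⟨x, hJ⟩
  have part1 : ∀ X : σ → Matrix (Fin (N + 1)) (Fin (N + 1)) K,
      (J.Subsingleton ∨ ∀ i ∈ J, (X i).IsDiag) →
      ∃ c : K, FreeAlgebra.lift K X g = Matrix.scalar (Fin (N + 1)) c := by
    have hd : ∀ X : σ → Matrix (Fin (N + 1)) (Fin (N + 1)) K, (∀ i ∈ J, (X i).IsDiag) →
        ∃ c : K, FreeAlgebra.lift K X g = Matrix.scalar (Fin (N + 1)) c := by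
      intro X hX
      exact main_J (fun s => s ∈ J) hN h2 h3 hν (hgJ _ fun _ => Iff.rfl) (hhJ _ fun _ => Iff.rfl)
        hsc X _ (hdiag X hX)
    intro X hX
    rcases hX with hX | hX
    · rcases hsub hX X with hX | ⟨x, hx⟩
      · exact hd X hX
      · have e : ∀ s, s = x ↔ s ∈ J := by
          intro s; rw [hx, Set.mem_singleton_iff]
        exact main_x x hN h2 h3 hν (hgJ _ e) (hhJ _ e) hsc X
    · exact hd X hX
  have part2 : (ν : K) ≠ 0 → ¬ ScalarValued (N + 1) (g + h) →
      ∀ X : σ → Matrix (Fin (N + 1)) (Fin (N + 1)) K,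
      (J.Subsingleton ∨ ∀ i ∈ J, (X i).IsDiag) → FreeAlgebra.lift K X g = 0 := by
    intro hνK hns
    have hz : ∀ (J' : σ → Prop) [DecidablePred J'], (∀ s, J' s ↔ s ∈ J) →
        FreeAlgebra.lift K (mt J' (ca K σ N) (cR K σ N)) g = 0 := by
      intro J' _ hJ
      by_contra hne
      exact hns fun Z => main_zero J' hN h2 h3 hν hνK (hgJ _ hJ) (hhJ _ hJ) hsc hne Z
    have hd : ∀ X : σ → Matrix (Fin (N + 1)) (Fin (N + 1)) K, (∀ i ∈ J, (X i).IsDiag) →
        FreeAlgebra.lift K X g = 0 := by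
      intro X hX
      exact zero_special (fun s => s ∈ J) (hz _ fun _ => Iff.rfl) X _ (hdiag X hX)
    intro X hX
    rcases hX with hX | hX
    · rcases hsub hX X with hX | ⟨x, hx⟩
      · exact hd X hX
      · have e : ∀ s, s = x ↔ s ∈ J := by
          intro s; rw [hx, Set.mem_singleton_iff]
        exact zero_of_generic x (hz _ e) X
    · exact hd X hX
  refine ⟨part1, part2, ?_⟩
  rintro hJ hν1 ⟨_, ⟨h4, X0, hX0⟩, h5⟩ rfl
  have h6 : IsCentral (N + 1) ((g + 0) ^ 1) := by
    rw [pow_one]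
    refine ⟨fun X => ?_, X0, fun hz => hX0 ?_⟩
    · rw [add_zero]
      exact part1 X (Or.inl hJ)
    · rw [map_pow, hz, zero_pow hν.ne']
  have := h5 1 one_pos h6
  omega

end Pool.Agent.Results.MP_5d2531_al.OtherVariablesDegree
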