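import Mathlib
import Pool.Agent.TH46.NC.Final

/-! For a prime `n ≥ 5` and any infinite field, an `n`-central polynomial for `n × n` matrices cannot
have degree at most one in all variables but one. -/

set_option autoImplicit false
set_option linter.all false

namespace Pool.Agent.Results.MP_5d2531_al.TwoNonlinearVariables

open Pool.Agent.H552R3.PC Pool.Agent.TH46.NC

variable {K : Type*} [Field K] {σ : Type*}

/-- Every value of `f` on `n × n` matrices over `K` is a scalar matrix. -/
def ScalarValued (n : ℕ) (f : FreeAlgebra K σ) : Prop :=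
  ∀ X : σ → Matrix (Fin n) (Fin n) K, ∃ c : K, FreeAlgebra.lift K X f = Matrix.scalar (Fin n) c

/-- `f` is central for `M_n(K)`: all values are scalar and `f` is not identically zero. -/
def IsCentral (n : ℕ) (f : FreeAlgebra K σ) : Prop :=
  ScalarValued n f ∧ ∃ X : σ → Matrix (Fin n) (Fin n) K, FreeAlgebra.lift K X f ≠ 0

/-- `f` is `ν`-central for `M_n(K)`: `ν` is the least positive integer with `f ^ ν` central. -/
def IsNuCentral (n ν : ℕ) (f : FreeAlgebra K σ) : Prop :=
  0 < ν ∧ IsCentral n (f ^ ν) ∧ ∀ μ : ℕ, 0 < μ → IsCentral n (f ^ μ) → ν ≤ μ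

/-- `f` has degree at most one in every variable other than `x`: it is a linear combination of
monomials in which each variable other than `x` occurs at most once. -/
def DegreeLEOneExcept [DecidableEq σ] (x : σ) (f : FreeAlgebra K σ) : Prop :=
  f ∈ Submodule.span K {w : FreeAlgebra K σ | ∃ l : List σ,
    (∀ v, v ≠ x → l.count v ≤ 1) ∧ w = (l.map (FreeAlgebra.ι K)).prod}

/-- Let `n ≥ 5` be prime, `K` any infinite field and `f` an `n`-central polynomial for `M_n(K)`.
Then there is no variable `x` such that `f` has degree at most one in every variable other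
than `x`. -/
theorem result {K : Type*} [Field K] [Infinite K] {σ : Type*} [DecidableEq σ] (n : ℕ)
    (hn : n.Prime) (hn5 : 5 ≤ n) (f : FreeAlgebra K σ) (hcen : IsNuCentral n n f) (x : σ) :
    ¬ DegreeLEOneExcept x f := by
  intro hx
  have hodd : Odd n := hn.odd_of_ne_two (by omega)
  obtain ⟨h1, ⟨h2, X0, hX0⟩, h3⟩ := hcen
  have hfX0 : FreeAlgebra.lift K X0 f ≠ 0 := by
    intro hz
    apply hX0
    rw [map_pow, hz, zero_pow hn.ne_zero]
  have hpow : ∀ X : σ → Matrix (Fin n) (Fin n) K, ∀ Z : Matrix (Fin n) (Fin n) K,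
      FreeAlgebra.lift K X (f ^ n) * Z = Z * FreeAlgebra.lift K X (f ^ n) := by
    intro X Z
    obtain ⟨c, hc⟩ := h2 X
    rw [hc]
    exact (Matrix.scalar_commute c (fun _ => Commute.all _ _) Z).eq
  -- `f` is not scalar valued
  have hns : ¬ ScalarValued n f := by
    intro hcon
    have h4 : IsCentral n (f ^ 1) := by
      rw [pow_one]
      exact ⟨hcon, X0, hfX0⟩
    have h5 := h3 1 one_pos h4
    omega
  obtain ⟨g, hg, hs⟩ := decomp x f hx
  by_cases hnK : (n : K) = 0
  · -- characteristic `n`
    have : CharP K n := by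
      obtain ⟨p, hp⟩ := CharP.exists K
      have hpn : p ∣ n := (CharP.cast_eq_zero_iff K p n).mp hnK
      rcases (Nat.dvd_prime hn).mp hpn with h | h
      · subst h
        exact absurd rfl (CharP.char_ne_one K 1)
      · subst h; exact hp
    apply hns
    intro X
    have hsc := comp_scalar hn hodd hpow hg hs
    choose c hc using fun T => hsc T X
    refine ⟨∑ T ∈ g.support, c T, ?_⟩
    rw [← hs, map_sum, map_sum]
    exact Finset.sum_congr rfl fun T _ => hc T
  · -- characteristic prime to `n`
    have hne : ∃ X : σ → Matrix (Fin n) (Fin n) K, ∃ Z : Matrix (Fin n) (Fin n) K,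
        FreeAlgebra.lift K X f * Z ≠ Z * FreeAlgebra.lift K X f := by
      by_contra hcon
      push Not at hcon
      exact hns fun X => scalar_of_comm _ (fun Y => hcon X Y)
    have hchar := charpoly_of_ncentral hn hnK f hpow hne
    have hchp : ∀ X : σ → Matrix (Fin n) (Fin n) K, ∀ i, 0 < i → i < n →
        (FreeAlgebra.lift K X f).charpoly.coeff i = 0 := by
      intro X i hi hin
      obtain ⟨c, hc⟩ := hchar X
      rw [hc, Polynomial.coeff_sub, Polynomial.coeff_X_pow, Polynomial.coeff_C, if_neg hin.ne,
        if_neg hi.ne', sub_zero]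
    have h0 := comp_zero (by omega) hodd hnK hpow hchp hg hs
    apply hfX0
    rw [← hs, map_sum]
    exact Finset.sum_eq_zero fun T _ => h0 T X0

end Pool.Agent.Results.MP_5d2531_al.TwoNonlinearVariables
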